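import Mathlib

set_option autoImplicit false

/-!
Graph lemmas for the tree theorem (MP_a46c6f_co): acyclic graphs by cuts, the Laplacian mod 2 of an
acyclic graph, and gluing trees at a vertex.
-/

namespace Pool.Agent.H17.TR

open Classical

/-- walks in a graph without the edge `ab` stay in a set which only that edge leaves -/
theorem stay {V : Type} (G : SimpleGraph V) (a b : V) (S : Set V)
    (hS : ∀ v w, G.Adj v w → v ∈ S → w ∉ S → v = a ∧ w = b) {c d : V}
    (p : (G.deleteEdges {s(a, b)}).Walk c d) : c ∈ S → d ∈ S := by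
  induction p with
  | nil => exact id
  | @cons u v w hadj p ih =>
    intro hu
    apply ih
    by_contra hv
    rw [SimpleGraph.deleteEdges_adj] at hadj
    obtain ⟨h1, h2⟩ := hadj
    obtain ⟨e1, e2⟩ := hS u v h1 hu hv
    apply h2
    rw [e1, e2]
    exact Set.mem_singleton _

/-- a graph in which every edge is the only edge leaving some set is acyclic -/
theorem acyclic_of_cut {V : Type} (G : SimpleGraph V)
    (h : ∀ a b, G.Adj a b → ∃ S : Set V, a ∈ S ∧ b ∉ S ∧
      ∀ v w, G.Adj v w → v ∈ S → w ∉ S → v = a ∧ w = b) : G.IsAcyclic := by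
  rw [SimpleGraph.isAcyclic_iff_forall_adj_isBridge]
  intro a b hab
  obtain ⟨S, ha, hb, hS⟩ := h a b hab
  rw [SimpleGraph.isBridge_iff]
  rintro ⟨p⟩
  exact hb (stay G a b S hS p ha)

/-- in an acyclic graph every edge is the only edge leaving some set -/
theorem cut_of_acyclic {V : Type} (G : SimpleGraph V) (hG : G.IsAcyclic) (a b : V)
    (hab : G.Adj a b) : ∃ S : Set V, a ∈ S ∧ b ∉ S ∧
      ∀ v w, G.Adj v w → v ∈ S → w ∉ S → v = a ∧ w = b := by
  rw [SimpleGraph.isAcyclic_iff_forall_adj_isBridge] at hG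
  have hb := hG hab
  rw [SimpleGraph.isBridge_iff] at hb
  refine ⟨{c | (G.deleteEdges {s(a, b)}).Reachable a c}, SimpleGraph.Reachable.refl _, hb, ?_⟩
  intro v w hvw hv hw
  have hs : s(v, w) = s(a, b) := by
    by_contra hne
    apply hw
    refine SimpleGraph.Reachable.trans hv (SimpleGraph.Adj.reachable ?_)
    rw [SimpleGraph.deleteEdges_adj]
    exact ⟨hvw, by simpa using hne⟩
  rw [Sym2.eq_iff] at hs
  rcases hs with h1 | h1
  · exact h1
  · obtain ⟨rfl, rfl⟩ := h1
    exact absurd hv hb

/-- a double sum over a set of a symmetric function with zero diagonal is `0` mod 2 -/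
theorem double_sum {V : Type} [Fintype V] (C : Finset V) (f : V → V → ZMod 2)
    (hs : ∀ v w, f v w = f w v) (hd : ∀ v, f v v = 0) : ∑ v ∈ C, ∑ w ∈ C, f v w = 0 := by
  induction C using Finset.induction_on with
  | empty => simp
  | @insert a C ha ih =>
    rw [Finset.sum_insert ha, Finset.sum_insert ha, hd]
    have h1 : ∀ v ∈ C, ∑ w ∈ insert a C, f v w = f v a + ∑ w ∈ C, f v w := fun v _ =>
      Finset.sum_insert ha
    rw [Finset.sum_congr rfl h1, Finset.sum_add_distrib, ih]
    have h2 : ∑ v ∈ C, f v a = ∑ w ∈ C, f a w := Finset.sum_congr rfl (fun v _ => hs v a)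
    rw [h2]
    have h3 : ∀ x : ZMod 2, 0 + x + (x + 0) = 0 := by decide
    exact h3 _

/-- the kernel of the Laplacian mod 2 of an acyclic graph: constant along edges -/
theorem lap_const {V : Type} [Fintype V] (G : SimpleGraph V) (hG : G.IsAcyclic) (x : V → ZMod 2)
    (h : ∀ v, ∑ w, (if G.Adj v w then x v + x w else 0) = 0) {a b : V} (hab : G.Adj a b) :
    x a = x b := by
  obtain ⟨S, ha, hb, hS⟩ := cut_of_acyclic G hG a b hab
  let C : Finset V := Finset.univ.filter (fun v => v ∈ S)
  have h0 : ∑ v ∈ C, ∑ w, (if G.Adj v w then x v + x w else 0) = 0 :=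
    Finset.sum_eq_zero (fun v _ => h v)
  have h1 : ∀ v ∈ C, ∑ w, (if G.Adj v w then x v + x w else 0) =
      ∑ w ∈ C, (if G.Adj v w then x v + x w else 0) + (if v = a then x a + x b else 0) := by
    intro v hv
    rw [← Finset.sum_add_sum_compl C]
    congr 1
    by_cases hva : v = a
    · subst hva
      rw [if_pos rfl]
      rw [Finset.sum_eq_single b]
      · rw [if_pos hab]
      · intro w hw hwb
        rw [if_neg]
        intro hadj
        have hwS : w ∉ S := by
          intro hh
          rw [Finset.mem_compl] at hw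
          exact hw (by simp [C, hh])
        exact hwb (hS v w hadj ha hwS).2
      · intro hbC
        exfalso
        apply hbC
        rw [Finset.mem_compl]
        simp [C, hb]
    · rw [if_neg hva]
      apply Finset.sum_eq_zero
      intro w hw
      rw [if_neg]
      intro hadj
      have hwS : w ∉ S := by
        intro hh
        rw [Finset.mem_compl] at hw
        exact hw (by simp [C, hh])
      have hvS : v ∈ S := by simpa [C] using hv
      exact hva (hS v w hadj hvS hwS).1
  rw [Finset.sum_congr rfl h1, Finset.sum_add_distrib, double_sum] at h0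
  · have haC : a ∈ C := by simp [C, ha]
    rw [Finset.sum_ite_eq' C a, if_pos haC, zero_add] at h0
    have h3 : ∀ p q : ZMod 2, p + q = 0 → p = q := by decide
    exact h3 _ _ h0
  · intro v w
    by_cases hvw : G.Adj v w
    · rw [if_pos hvw, if_pos hvw.symm, add_comm]
    · rw [if_neg hvw, if_neg (fun h' => hvw h'.symm)]
  · intro v
    rw [if_neg (G.loopless.irrefl v)]

/-- the same with the sum in the form of a function -/
theorem lap_const' {V : Type} [Fintype V] (G : SimpleGraph V) (hG : G.IsAcyclic) (x : V → ZMod 2)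
    (f : V → V → ZMod 2) (hf : ∀ v w, G.Adj v w → f v w = x v + x w)
    (hf' : ∀ v w, ¬ G.Adj v w → f v w = 0)
    (h : ∀ v, ∑ w, f v w = 0) {a b : V} (hab : G.Adj a b) : x a = x b := by
  refine lap_const G hG x ?_ hab
  intro v
  refine Eq.trans ?_ (h v)
  apply Finset.sum_congr rfl
  intro w _
  by_cases hvw : G.Adj v w
  · rw [if_pos hvw, hf v w hvw]
  · rw [if_neg hvw, hf' v w hvw]

/-- gluing trees at a vertex `e`: `b` gives the classes of the vertices other than `e` -/
theorem glue {V ι : Type} (G : SimpleGraph V) (e : V) (b : V → ι)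
    (h1 : ∀ v w, v ≠ e → w ≠ e → G.Adj v w → b v = b w)
    (h2 : ∀ p, p ≠ e →
      (G.comap (Subtype.val : {v // v = e ∨ b v ≠ b p} → V)).IsTree)
    (h3 : ∀ v, v ≠ e → ∃ p, p ≠ e ∧ b p ≠ b v) : G.IsTree := by
  have hreach : ∀ v, G.Reachable v e := by
    intro v
    by_cases hv : v = e
    · rw [hv]
    · obtain ⟨p, hp, hpv⟩ := h3 v hv
      have ht := (h2 p hp).connected.preconnected ⟨v, Or.inr (Ne.symm hpv)⟩ ⟨e, Or.inl rfl⟩
      exact ht.map (SimpleGraph.Hom.comap _ G)
  refine ⟨?_, ?_⟩
  · have : Nonempty V := ⟨e⟩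
    exact ⟨fun v w => (hreach v).trans (hreach w).symm⟩
  · apply acyclic_of_cut
    intro a c hac
    obtain ⟨p, hp, hpa, hpc⟩ : ∃ p, p ≠ e ∧ (a = e ∨ b a ≠ b p) ∧ (c = e ∨ b c ≠ b p) := by
      by_cases ha : a = e
      · have hc : c ≠ e := by
          rintro rfl
          exact hac.ne ha
        obtain ⟨p, hp, hpc⟩ := h3 c hc
        exact ⟨p, hp, Or.inl ha, Or.inr (Ne.symm hpc)⟩
      · obtain ⟨p, hp, hpa⟩ := h3 a ha
        refine ⟨p, hp, Or.inr (Ne.symm hpa), ?_⟩
        by_cases hc : c = e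
        · exact Or.inl hc
        · right
          rw [← h1 a c ha hc hac]
          exact Ne.symm hpa
    obtain ⟨S, haS, hcS, hS⟩ := cut_of_acyclic _ (h2 p hp).isAcyclic ⟨a, hpa⟩ ⟨c, hpc⟩
      (by simpa using hac)
    have heW : (e = e ∨ b e ≠ b p) := Or.inl rfl
    refine ⟨{v | (∃ h : (v = e ∨ b v ≠ b p), (⟨v, h⟩ : {v // v = e ∨ b v ≠ b p}) ∈ S) ∨
      (¬ (v = e ∨ b v ≠ b p) ∧ (⟨e, heW⟩ : {v // v = e ∨ b v ≠ b p}) ∈ S)},
      Or.inl ⟨hpa, haS⟩, ?_, ?_⟩
    · rintro (⟨h, h'⟩ | ⟨h, h'⟩)
      · exact hcS h'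
      · exact h hpc
    · intro v w hvw hv hw
      by_cases hvW : (v = e ∨ b v ≠ b p)
      · have hvS : (⟨v, hvW⟩ : {v // v = e ∨ b v ≠ b p}) ∈ S := by
          rcases hv with ⟨h, h'⟩ | ⟨h, h'⟩
          · exact h'
          · exact absurd hvW h
        by_cases hwW : (w = e ∨ b w ≠ b p)
        · have hwS : (⟨w, hwW⟩ : {v // v = e ∨ b v ≠ b p}) ∉ S := fun h' => hw (Or.inl ⟨hwW, h'⟩)
          have := hS ⟨v, hvW⟩ ⟨w, hwW⟩ (by simpa using hvw) hvS hwS
          exact ⟨congrArg Subtype.val this.1, congrArg Subtype.val this.2⟩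
        · exfalso
          push Not at hwW
          by_cases hve : v = e
          · subst hve
            exact hw (Or.inr ⟨by push Not; exact hwW, hvS⟩)
          · have := h1 v w hve hwW.1 hvw
            rcases hvW with h | h
            · exact hve h
            · exact h (this.trans hwW.2)
      · have heS : (⟨e, heW⟩ : {v // v = e ∨ b v ≠ b p}) ∈ S := by
          rcases hv with ⟨h, h'⟩ | ⟨h, h'⟩
          · exact absurd h hvW
          · exact h'
        exfalso
        push Not at hvW
        by_cases hwW : (w = e ∨ b w ≠ b p)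
        · by_cases hwe : w = e
          · subst hwe
            exact hw (Or.inl ⟨heW, heS⟩)
          · have := h1 v w hvW.1 hwe hvw
            rcases hwW with h | h
            · exact hwe h
            · exact h (this.symm.trans hvW.2)
        · exact hw (Or.inr ⟨hwW, heS⟩)

theorem tree_congr {V : Type} (G : SimpleGraph V) (p q : V → Prop) (hpq : p = q)
    (h : (G.comap (Subtype.val : {v // p v} → V)).IsTree) :
    (G.comap (Subtype.val : {v // q v} → V)).IsTree := by
  subst hpq
  exact h

/-- gluing trees at a vertex `e`: the classes are the members of `P` -/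
theorem glueP {V : Type} (G : SimpleGraph V) (e : V) (P : Finset (Finset V))
    (he : ∀ M ∈ P, e ∉ M) (hne : ∀ M ∈ P, M ≠ ∅)
    (hdisj : ∀ M ∈ P, ∀ N ∈ P, M ≠ N → Disjoint M N)
    (hcov : ∀ v, v ≠ e → ∃ M ∈ P, v ∈ M)
    (h1 : ∀ M ∈ P, ∀ v ∈ M, ∀ w, w ≠ e → G.Adj v w → w ∈ M)
    (h2 : ∀ M ∈ P, (G.comap (Subtype.val : {v // v ∉ M} → V)).IsTree)
    (h3 : 2 ≤ P.card) : G.IsTree := by
  choose! b hbP hbm using hcov
  have hb : ∀ M ∈ P, ∀ v, v ≠ e → (b v = M ↔ v ∈ M) := by
    intro M hM v hv
    constructor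
    · rintro rfl
      exact hbm v hv
    · intro hvM
      by_contra hne'
      exact Finset.disjoint_left.1 (hdisj _ (hbP v hv) M hM hne') (hbm v hv) hvM
  apply glue G e b
  · intro v w hv hw hvw
    symm
    rw [hb (b v) (hbP v hv) w hw]
    exact h1 _ (hbP v hv) v (hbm v hv) w hw hvw
  · intro p hp
    refine tree_congr G (fun v => v ∉ b p) (fun v => v = e ∨ b v ≠ b p) ?_ (h2 _ (hbP p hp))
    funext v
    by_cases hv : v = e
    · subst hv
      simp [he _ (hbP p hp)]
    · have := hb (b p) (hbP p hp) v hv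
      simp only [hv, false_or, ne_eq, this]
  · intro v hv
    obtain ⟨M, hM, hMb⟩ : ∃ M ∈ P, M ≠ b v := by
      by_contra hno
      push Not at hno
      have : P ⊆ {b v} := fun M hM => Finset.mem_singleton.2 (hno M hM)
      have := Finset.card_le_card this
      simp at this
      omega
    obtain ⟨p, hp⟩ := Finset.nonempty_iff_ne_empty.2 (hne M hM)
    have hpe : p ≠ e := by
      rintro rfl
      exact he M hM hp
    refine ⟨p, hpe, ?_⟩
    rw [(hb M hM p hpe).2 hp]
    exact hMb

end Pool.Agent.H17.TR
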