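import Pool.Agent.H17.TR.Graph
import Pool.Agent.H26.TR.Full
import Pool.Agent.H98.Code.Minor

set_option autoImplicit false

/-!
The tree theorem when there are at least three parts at the root (MP_a46c6f_co, note 6859 (2)).
-/

namespace Pool.Agent.H17.TR

open Pool.Agent.H98.Code Pool.Agent.H26.TR

section
variable {V : Type}

/-- the graph of a matrix -/
def GrH (H : V → V → ZMod 2) : SimpleGraph V := SimpleGraph.fromRel (fun u v => H u v = 1)

/-- `H` is the matrix of the code `L` -/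
structure IsMat [Fintype V] (L : Submodule (ZMod 2) (V → K)) (H : V → V → ZMod 2) : Prop where
  sym : ∀ u v, H u v = H v u
  mem : ∀ u, u ∈ L ↔ ∀ v, (u v).2 = ∑ w, H v w * (u w).1

theorem IsMat.adj [Fintype V] {L : Submodule (ZMod 2) (V → K)} {H : V → V → ZMod 2}
    (h : IsMat L H) (u v : V) : (GrH H).Adj u v ↔ u ≠ v ∧ H u v = 1 := by
  unfold GrH
  rw [SimpleGraph.fromRel_adj, h.sym v u, or_self]

theorem IsMat.noz [Fintype V] {L : Submodule (ZMod 2) (V → K)} {H : V → V → ZMod 2}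
    (h : IsMat L H) : NoZ L := by
  intro u hu hz
  have h1 := (h.mem u).1 hu
  funext v
  apply Prod.ext
  · exact hz v
  · rw [h1 v]
    apply Finset.sum_eq_zero
    intro w _
    rw [hz w, mul_zero]

end

section
variable {V : Type} [Fintype V] [DecidableEq V]

/-- the rows of the matrix are words -/
theorem IsMat.row {L : Submodule (ZMod 2) (V → K)} {H : V → V → ZMod 2}
    (h : IsMat L H) (m : V) : (fun w => ((if w = m then 1 else 0 : ZMod 2), H w m)) ∈ L := by
  rw [h.mem]
  intro v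
  simp

/-- a decomposition at `e` -/
structure Dec (L : Submodule (ZMod 2) (V → K)) (e : V) (D : V → K) (P : Finset (Finset V)) :
    Prop where
  ne : ∀ M ∈ P, M ≠ ∅
  he : ∀ M ∈ P, e ∉ M
  mem : ∀ M ∈ P, pw D e M ∈ L
  disj : ∀ M ∈ P, ∀ N ∈ P, M ≠ N → Disjoint M N
  cov : ∀ v, v ≠ e → ∃ M ∈ P, v ∈ M
  all : ∀ u, KD L D e u → ∀ M ∈ P, M ⊆ sup e u ∨ Disjoint M (sup e u)

theorem exists_dec {L : Submodule (ZMod 2) (V → K)} {e : V} {D : V → K} (h : Hyp L e D) :
    ∃ P, Dec L e D P := by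
  obtain ⟨P, h1, h2, h3, h4⟩ := h.decomp
  exact ⟨P, fun M hM => (h1 M hM).1, fun M hM => (h1 M hM).2.1, fun M hM => (h1 M hM).2.2, h2, h3,
    h4⟩

/-- the minor outside the part `M`, with the letters `D` on `M`, changed at `x` -/
def NN (L : Submodule (ZMod 2) (V → K)) (D : V → K) (M : Finset V) (x : V) :
    Submodule (ZMod 2) ({v // v ∉ M} → K) :=
  Minor L (Subtype.val : {v // v ∉ M} → V) (fun v => if v = x then D v + z else D v)

theorem mem_NN {L : Submodule (ZMod 2) (V → K)} {D : V → K} {M : Finset V} {x : V}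
    {a : {v // v ∉ M} → K} : a ∈ NN L D M x ↔
      ∃ u ∈ L, (∀ v ∈ M, kf (u v) (if v = x then D v + z else D v) = 0) ∧ a = fun w => u w.1 := by
  unfold NN
  rw [mem_minor]
  constructor
  · rintro ⟨u, hu, h1, h2⟩
    refine ⟨u, hu, ?_, h2⟩
    intro v hv
    apply h1
    rintro ⟨w, rfl⟩
    exact w.2 hv
  · rintro ⟨u, hu, h1, h2⟩
    refine ⟨u, hu, ?_, h2⟩
    intro v hv
    apply h1
    by_contra hvM
    exact hv ⟨⟨v, hvM⟩, rfl⟩

variable {L : Submodule (ZMod 2) (V → K)} {e : V} {D : V → K} {P : Finset (Finset V)}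

theorem pw_of_mem {M : Finset V} {v : V} (hv : v ≠ e) (hM : v ∈ M) : pw D e M v = D v := by
  unfold pw
  rw [if_neg hv, if_pos hM]

theorem pw_of_notMem {M : Finset V} {v : V} (hv : v ≠ e) (hM : v ∉ M) : pw D e M v = 0 := by
  unfold pw
  rw [if_neg hv, if_neg hM]

theorem pw_e {M : Finset V} : pw D e M e = z := by
  unfold pw
  rw [if_pos rfl]

/-- no edges between different parts in the minor -/
theorem stepA (h : Hyp L e D) (hd : Dec L e D P) {M : Finset V} (hM : M ∈ P) {x : V}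
    {H' : {v // v ∉ M} → {v // v ∉ M} → ZMod 2} (hH : IsMat (NN L D M x) H')
    (hT : (GrH H').IsAcyclic) {Q : Finset V} (hQ : Q ∈ P) (hQM : Q ≠ M) (v w : {v // v ∉ M})
    (hv : v.1 ≠ e) (hw : w.1 ≠ e) (hvQ : v.1 ∈ Q) (hwQ : w.1 ∉ Q) : H' v w = 0 := by
  classical
  by_contra hne
  have h1 : H' v w = 1 := by
    generalize H' v w = a at hne
    revert a
    decide
  let G : SimpleGraph {v // v ∉ M} :=
    { Adj := fun a b => (GrH H').Adj a b ∧ a.1 ≠ e ∧ b.1 ≠ e
      symm := ⟨fun a b hab => ⟨hab.1.symm, hab.2.2, hab.2.1⟩⟩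
      loopless := ⟨fun a ha => (GrH H').loopless.irrefl a ha.1⟩ }
  have hG : G.IsAcyclic := SimpleGraph.IsAcyclic.anti (fun a b hab => hab.1) hT
  let X : {v // v ∉ M} → ZMod 2 := fun a => if a.1 ∈ Q then 1 else 0
  have hvw : v ≠ w := by
    rintro rfl
    exact hwQ hvQ
  -- the word of `Q`
  have hq : (fun a : {v // v ∉ M} => pw D e Q a.1) ∈ NN L D M x := by
    rw [mem_NN]
    refine ⟨pw D e Q, hd.mem Q hQ, ?_, rfl⟩
    intro a ha
    have hae : a ≠ e := by
      rintro rfl
      exact hd.he M hM ha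
    have haQ : a ∉ Q := fun haQ => Finset.disjoint_left.1 (hd.disj Q hQ M hM hQM) haQ ha
    rw [pw_of_notMem hae haQ, kf_zero_left]
  obtain ⟨u, hu, hut⟩ := h.exists_total
  have hj : (fun a : {v // v ∉ M} => (u + pw D e M) a.1) ∈ NN L D M x := by
    rw [mem_NN]
    refine ⟨u + pw D e M, L.add_mem hu.1 (hd.mem M hM), ?_, rfl⟩
    intro a ha
    have hae : a ≠ e := by
      rintro rfl
      exact hd.he M hM ha
    rw [Pi.add_apply, hut a hae, pw_of_mem hae ha, k_add_self, kf_zero_left]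
  have hq1 := (hH.mem _).1 hq
  have hj1 := (hH.mem _).1 hj
  have fq : ∀ a : {v // v ∉ M}, (pw D e Q a.1).1 = if a.1 ∈ Q then 1 else 0 := by
    intro a
    by_cases hae : a.1 = e
    · rw [hae, pw_e, if_neg (hd.he Q hQ)]
      rfl
    · by_cases haQ : a.1 ∈ Q
      · rw [pw_of_mem hae haQ, if_pos haQ, h.letter _ hae]
      · rw [pw_of_notMem hae haQ, if_neg haQ]
        rfl
  have fj : ∀ a : {v // v ∉ M}, ((u + pw D e M) a.1).1 = if a.1 ≠ e then 1 else 0 := by
    intro a
    by_cases hae : a.1 = e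
    · rw [hae, if_neg (by simp), Pi.add_apply, pw_e]
      rcases hu.2.2 with h2 | h2
      · rw [h2]; rfl
      · rw [h2]; rfl
    · rw [if_pos hae, Pi.add_apply, hut _ hae, pw_of_notMem hae a.2, add_zero, h.letter _ hae]
  let f : {v // v ∉ M} → {v // v ∉ M} → ZMod 2 := fun a b =>
    if a.1 = e then 0 else (if b.1 = e then 0 else H' a b * (X a + X b))
  have hf1 : ∀ a b, G.Adj a b → f a b = X a + X b := by
    intro a b hab
    simp only [f]
    rw [if_neg hab.2.1, if_neg hab.2.2, ((hH.adj a b).1 hab.1).2, one_mul]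
  have hf2 : ∀ a b, ¬ G.Adj a b → f a b = 0 := by
    intro a b hab
    simp only [f]
    by_cases hae : a.1 = e
    · rw [if_pos hae]
    · rw [if_neg hae]
      by_cases hbe : b.1 = e
      · rw [if_pos hbe]
      · rw [if_neg hbe]
        by_cases hab' : a = b
        · subst hab'
          have : ∀ c d : ZMod 2, c * (d + d) = 0 := by decide
          exact this _ _
        · have hH1 : H' a b ≠ 1 := fun hH1 => hab ⟨(hH.adj a b).2 ⟨hab', hH1⟩, hae, hbe⟩
          have : H' a b = 0 := by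
            generalize H' a b = c at hH1
            revert c
            decide
          rw [this, zero_mul]
  have hlap : ∀ a, ∑ b, f a b = 0 := by
    intro a
    by_cases hae : a.1 = e
    · apply Finset.sum_eq_zero
      intro b _
      simp only [f]
      rw [if_pos hae]
    · have hqa : (pw D e Q a.1).2 = ∑ b, H' a b * (pw D e Q b.1).1 := hq1 a
      have hja : ((u + pw D e M) a.1).2 = ∑ b, H' a b * ((u + pw D e M) b.1).1 := hj1 a
      rw [Finset.sum_congr rfl (fun b _ => by rw [fq b])] at hqa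
      rw [Finset.sum_congr rfl (fun b _ => by rw [fj b])] at hja
      have e2 : ∀ b : {v // v ∉ M}, f a b =
          X a * (H' a b * (if b.1 ≠ e then 1 else 0)) + H' a b * (if b.1 ∈ Q then 1 else 0) := by
        intro b
        simp only [f]
        rw [if_neg hae]
        by_cases hbe : b.1 = e
        · have hbQ : b.1 ∉ Q := by
            rw [hbe]
            exact hd.he Q hQ
          rw [if_pos hbe, if_neg (fun h' => h' hbe), if_neg hbQ]
          ring
        · rw [if_neg hbe, if_pos hbe]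
          simp only [X]
          ring
      rw [Finset.sum_congr rfl (fun b _ => e2 b), Finset.sum_add_distrib, ← Finset.mul_sum,
        ← hqa, ← hja]
      by_cases haQ : a.1 ∈ Q
      · rw [pw_of_mem hae haQ, Pi.add_apply, hut _ hae, pw_of_notMem hae a.2, add_zero]
        simp only [X, if_pos haQ, one_mul]
        exact CharTwo.add_self_eq_zero _
      · rw [pw_of_notMem hae haQ]
        simp only [X, if_neg haQ, zero_mul, zero_add]
        rfl
  have hfin := lap_const' G hG X f hf1 hf2 hlap (a := v) (b := w)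
    ⟨(hH.adj v w).2 ⟨hvw, h1⟩, hv, hw⟩
  simp only [X, if_pos hvQ, if_neg hwQ] at hfin
  exact absurd hfin (by decide)

/-- lifting the rows of the minor -/
theorem lift_row (h : Hyp L e D) (hd : Dec L e D P) {M : Finset V} (hM : M ∈ P) {x : V}
    (hx : x ∈ M) {H' : {v // v ∉ M} → {v // v ∉ M} → ZMod 2} (hH : IsMat (NN L D M x) H')
    (m : {v // v ∉ M}) (hm : m.1 ≠ e) :
    ∃ y ∈ L, (∀ v ∈ M, y v = 0 ∨ y v = D v) ∧ y x = 0 ∧
      ∀ w : {v // v ∉ M}, y w.1 = ((if w = m then 1 else 0 : ZMod 2), H' w m) := by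
  have heM := hd.he M hM
  obtain ⟨y, hy, hy1, hy2⟩ := mem_NN.1 (hH.row m)
  have hrow : ∀ w : {v // v ∉ M}, y w.1 = ((if w = m then 1 else 0 : ZMod 2), H' w m) :=
    fun w => (congrFun hy2 w).symm
  have hMe : ∀ v ∈ M, v ≠ e := by
    rintro v hv rfl
    exact heM hv
  have hye : (y e).1 = 0 := by
    have h1 := hrow ⟨e, heM⟩
    rw [h1]
    simp only []
    rw [if_neg]
    rintro rfl
    exact hm rfl
  have hyM : ∀ v ∈ M, v ≠ x → y v = 0 ∨ y v = D v := by
    intro v hv hvx
    have h1 := hy1 v hv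
    rw [if_neg hvx] at h1
    exact (kf_eq_zero_iff _ _ (h.D_ne (hMe v hv))).1 h1
  have hyx : y x = 0 ∨ y x = D x + z := by
    have h1 := hy1 x hx
    rw [if_pos rfl] at h1
    refine (kf_eq_zero_iff _ _ ?_).1 h1
    intro h0
    have h2 := k_fst_add_z (D x)
    rw [h0, h.letter x (hMe x hx)] at h2
    exact absurd h2 (by decide)
  have hform := h.iso y hy _ (hd.mem M hM)
  unfold form at hform
  rw [Finset.sum_eq_single x] at hform
  · rw [pw_of_mem (hMe x hx) hx] at hform
    have hyx' : y x = 0 := by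
      rcases hyx with h1 | h1
      · exact h1
      · exfalso
        rw [h1] at hform
        have h2 := h.letter x (hMe x hx)
        generalize D x = a at hform h2
        revert a
        decide
    refine ⟨y, hy, ?_, hyx', hrow⟩
    intro v hv
    by_cases hvx : v = x
    · rw [hvx]
      exact Or.inl hyx'
    · exact hyM v hv hvx
  · intro v _ hvx
    by_cases hve : v = e
    · rw [hve, pw_e, kf_z_right, hye]
    · by_cases hvM : v ∈ M
      · rw [pw_of_mem hve hvM]
        exact (kf_eq_zero_iff _ _ (h.D_ne hve)).2 (hyM v hvM hvx)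
      · rw [pw_of_notMem hve hvM, kf_zero_right]
  · intro hx'
    exact absurd (Finset.mem_univ x) hx'

/-- comparison of the rows of the code with those of two of its minors -/
theorem stepC (h : Hyp L e D) (hd : Dec L e D P) {H : V → V → ZMod 2} (hH : IsMat L H)
    {M M' Q : Finset V} (hM : M ∈ P) (hM' : M' ∈ P) (hQ : Q ∈ P) (hMM : M ≠ M') (hQM : Q ≠ M)
    (hQM' : Q ≠ M') {x x' : V} (hx : x ∈ M) (hx' : x' ∈ M')
    {H' : {v // v ∉ M} → {v // v ∉ M} → ZMod 2} (hH' : IsMat (NN L D M x) H')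
    (hT' : (GrH H').IsAcyclic)
    {H'' : {v // v ∉ M'} → {v // v ∉ M'} → ZMod 2} (hH'' : IsMat (NN L D M' x') H'')
    (hT'' : (GrH H'').IsAcyclic) (m : V) (hm : m ∈ Q) :
    (∀ v ∈ M, H v m = 0) ∧
      ∀ (v : V) (hv : v ∉ M) (hmM : m ∉ M), H v m = H' ⟨v, hv⟩ ⟨m, hmM⟩ := by
  have hme : m ≠ e := by
    rintro rfl
    exact hd.he Q hQ hm
  have hmM : m ∉ M := fun h1 => Finset.disjoint_left.1 (hd.disj Q hQ M hM hQM) hm h1
  have hmM' : m ∉ M' := fun h1 => Finset.disjoint_left.1 (hd.disj Q hQ M' hM' hQM') hm h1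
  obtain ⟨y, hy, hy1, hy2, hy3⟩ := lift_row h hd hM hx hH' ⟨m, hmM⟩ hme
  obtain ⟨y', hy', hy1', hy2', hy3'⟩ := lift_row h hd hM' hx' hH'' ⟨m, hmM'⟩ hme
  have hz := hH.noz
  -- zero outside
  have a1 : ∀ v, v ≠ e → v ∉ M → v ∉ Q → y v = 0 := by
    intro v hve hvM hvQ
    have h1 := hy3 ⟨v, hvM⟩
    have h2 := stepA h hd hM hH' hT' hQ hQM ⟨m, hmM⟩ ⟨v, hvM⟩ hme hve hm hvQ
    rw [hH'.sym] at h2
    have h3 : v ≠ m := by
      rintro rfl
      exact hvQ hm
    rw [h1, h2, if_neg (fun h4 => h3 (congrArg Subtype.val h4))]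
    rfl
  have a2 : ∀ v, v ≠ e → v ∉ M' → v ∉ Q → y' v = 0 := by
    intro v hve hvM hvQ
    have h1 := hy3' ⟨v, hvM⟩
    have h2 := stepA h hd hM' hH'' hT'' hQ hQM' ⟨m, hmM'⟩ ⟨v, hvM⟩ hme hve hm hvQ
    rw [hH''.sym] at h2
    have h3 : v ≠ m := by
      rintro rfl
      exact hvQ hm
    rw [h1, h2, if_neg (fun h4 => h3 (congrArg Subtype.val h4))]
    rfl
  have f1 : ∀ v, v ∉ M → (y v).1 = if v = m then 1 else 0 := by
    intro v hvM
    rw [hy3 ⟨v, hvM⟩]
    by_cases hvm : v = m
    · subst hvm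
      simp
    · simp [hvm]
  have f2 : ∀ v, v ∉ M' → (y' v).1 = if v = m then 1 else 0 := by
    intro v hvM
    rw [hy3' ⟨v, hvM⟩]
    by_cases hvm : v = m
    · subst hvm
      simp
    · simp [hvm]
  have nM : ∀ v ∈ M, v ≠ e ∧ v ∉ M' ∧ v ∉ Q := by
    intro v hv
    refine ⟨?_, fun h1 => Finset.disjoint_left.1 (hd.disj M hM M' hM' hMM) hv h1,
      fun h1 => Finset.disjoint_left.1 (hd.disj Q hQ M hM hQM) h1 hv⟩
    rintro rfl
    exact hd.he M hM hv
  have nM' : ∀ v ∈ M', v ≠ e ∧ v ∉ M ∧ v ∉ Q := by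
    intro v hv
    refine ⟨?_, fun h1 => Finset.disjoint_left.1 (hd.disj M hM M' hM' hMM) h1 hv,
      fun h1 => Finset.disjoint_left.1 (hd.disj Q hQ M' hM' hQM') h1 hv⟩
    rintro rfl
    exact hd.he M' hM' hv
  have nQ : ∀ v ∈ Q, v ≠ e ∧ v ∉ M ∧ v ∉ M' := by
    intro v hv
    refine ⟨?_, fun h1 => Finset.disjoint_left.1 (hd.disj Q hQ M hM hQM) hv h1,
      fun h1 => Finset.disjoint_left.1 (hd.disj Q hQ M' hM' hQM') hv h1⟩
    rintro rfl
    exact hd.he Q hQ hv
  -- the difference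
  have dL : y + y' ∈ L := L.add_mem hy hy'
  have dM : ∀ v ∈ M, (y + y') v = 0 ∨ (y + y') v = D v := by
    intro v hv
    obtain ⟨h1, h2, h3⟩ := nM v hv
    rw [Pi.add_apply, a2 v h1 h2 h3, add_zero]
    exact hy1 v hv
  have dM' : ∀ v ∈ M', (y + y') v = 0 ∨ (y + y') v = D v := by
    intro v hv
    obtain ⟨h1, h2, h3⟩ := nM' v hv
    rw [Pi.add_apply, a1 v h1 h2 h3, zero_add]
    exact hy1' v hv
  have dx : (y + y') x = 0 := by
    obtain ⟨h1, h2, h3⟩ := nM x hx
    rw [Pi.add_apply, a2 x h1 h2 h3, add_zero]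
    exact hy2
  have dx' : (y + y') x' = 0 := by
    obtain ⟨h1, h2, h3⟩ := nM' x' hx'
    rw [Pi.add_apply, a1 x' h1 h2 h3, zero_add]
    exact hy2'
  have dO : ∀ v, v ≠ e → v ∉ M → v ∉ M' → v ∉ Q → (y + y') v = 0 := by
    intro v h1 h2 h3 h4
    rw [Pi.add_apply, a1 v h1 h2 h4, a2 v h1 h3 h4, add_zero]
  have d1 : ∀ v, v ∉ M → v ∉ M' → (y + y') v = 0 ∨ (y + y') v = z := by
    intro v h1 h2
    apply K_cases
    rw [Pi.add_apply, Prod.fst_add, f1 v h1, f2 v h2]
    exact CharTwo.add_self_eq_zero _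
  have de := d1 e (hd.he M hM) (hd.he M' hM')
  obtain ⟨t, ht, htt⟩ := h.exists_total
  let D' : V → K := fun v => if v ∈ Q ∧ (y + y') v = z then D v + z else D v
  have D'1 : ∀ v, v ∉ Q → D' v = D v := by
    intro v hv
    simp only [D']
    rw [if_neg (fun h1 => hv h1.1)]
  have D'2 : ∀ v ∈ Q, D' v = D v + (y + y') v := by
    intro v hv
    obtain ⟨h1, h2, h3⟩ := nQ v hv
    simp only [D']
    rcases d1 v h2 h3 with h4 | h4
    · rw [if_neg, h4, add_zero]
      rintro ⟨-, h5⟩
      rw [h4] at h5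
      exact absurd h5 (by decide)
    · rw [if_pos ⟨hv, h4⟩, h4]
  have D'l : ∀ v, v ≠ e → (D' v).1 = 1 := by
    intro v hv
    simp only [D']
    by_cases h1 : v ∈ Q ∧ (y + y') v = z
    · rw [if_pos h1, k_fst_add_z, h.letter v hv]
    · rw [if_neg h1, h.letter v hv]
  have D'n : ∀ v, v ≠ e → D' v ≠ 0 := by
    intro v hv h0
    have := D'l v hv
    rw [h0] at this
    exact absurd this (by decide)
  have kt : KD L D' e (t + (y + y')) := by
    refine ⟨L.add_mem ht.1 dL, ?_, ?_⟩
    · intro v hv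
      rw [Pi.add_apply, htt v hv]
      by_cases hvQ : v ∈ Q
      · right
        exact (D'2 v hvQ).symm
      · rw [D'1 v hvQ]
        have h5 : (y + y') v = 0 ∨ (y + y') v = D v := by
          by_cases hvM : v ∈ M
          · exact dM v hvM
          · by_cases hvM' : v ∈ M'
            · exact dM' v hvM'
            · exact Or.inl (dO v hv hvM hvM' hvQ)
        rcases h5 with h5 | h5
        · right
          rw [h5, add_zero]
        · left
          rw [h5, K_add_self]
    · rw [Pi.add_apply]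
      rcases ht.2.2 with h1 | h1 <;> rcases de with h2 | h2
      · left; rw [h1, h2, add_zero]
      · right; rw [h1, h2, zero_add]
      · right; rw [h1, h2, add_zero]
      · left; rw [h1, h2, K_add_self]
  have kp : ∀ N ∈ P, N ≠ Q → KD L D' e (pw D e N) := by
    intro N hN hNQ
    refine ⟨hd.mem N hN, ?_, Or.inr pw_e⟩
    intro v hv
    by_cases hvN : v ∈ N
    · right
      rw [pw_of_mem hv hvN, D'1 v (fun h1 => Finset.disjoint_left.1 (hd.disj N hN Q hQ hNQ) hvN h1)]
    · left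
      exact pw_of_notMem hv hvN
  have h' : Hyp L e D' := by
    refine ⟨h.iso, h.noz, h.split, D'l, ?_⟩
    intro v hv
    by_cases hvM : v ∈ M
    · refine ⟨pw D e M, kp M hM (Ne.symm hQM), ?_⟩
      rw [pw_of_mem hv hvM]
      exact h.D_ne hv
    · by_cases hvM' : v ∈ M'
      · refine ⟨pw D e M', kp M' hM' (Ne.symm hQM'), ?_⟩
        rw [pw_of_mem hv hvM']
        exact h.D_ne hv
      · refine ⟨_, kt, ?_⟩
        rw [Pi.add_apply, htt v hv]
        by_cases hvQ : v ∈ Q
        · rw [← D'2 v hvQ]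
          exact D'n v hv
        · rw [dO v hv hvM hvM' hvQ, add_zero]
          exact h.D_ne hv
  have huni := h.unique h' hz
  have dQ : ∀ v ∈ Q, (y + y') v = 0 := by
    intro v hv
    have h1 := huni v (nQ v hv).1
    rw [D'2 v hv] at h1
    have h2 : ∀ a b : K, a = a + b → b = 0 := by decide
    exact h2 _ _ h1
  have kd : KD L D e (y + y') := by
    refine ⟨dL, ?_, de⟩
    intro v hv
    by_cases hvM : v ∈ M
    · exact dM v hvM
    · by_cases hvM' : v ∈ M'
      · exact dM' v hvM'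
      · by_cases hvQ : v ∈ Q
        · exact Or.inl (dQ v hvQ)
        · exact Or.inl (dO v hv hvM hvM' hvQ)
  have zM : ∀ v ∈ M, (y + y') v = 0 := by
    intro v hv
    rcases hd.all _ kd M hM with h1 | h1
    · exact absurd dx (mem_sup.1 (h1 hx)).2
    · by_contra h2
      exact Finset.disjoint_left.1 h1 hv (mem_sup.2 ⟨(nM v hv).1, h2⟩)
  have zM' : ∀ v ∈ M', (y + y') v = 0 := by
    intro v hv
    rcases hd.all _ kd M' hM' with h1 | h1
    · exact absurd dx' (mem_sup.1 (h1 hx')).2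
    · by_contra h2
      exact Finset.disjoint_left.1 h1 hv (mem_sup.2 ⟨(nM' v hv).1, h2⟩)
  have yM : ∀ v ∈ M, y v = 0 := by
    intro v hv
    obtain ⟨h1, h2, h3⟩ := nM v hv
    have h4 := zM v hv
    rw [Pi.add_apply, a2 v h1 h2 h3, add_zero] at h4
    exact h4
  -- comparison with the row of `L`
  have hrow := hH.row m
  have hsum : y + (fun w => ((if w = m then 1 else 0 : ZMod 2), H w m)) = 0 := by
    apply hz _ (L.add_mem hy hrow)
    intro v
    rw [Pi.add_apply, Prod.fst_add]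
    by_cases hvM : v ∈ M
    · have hvm : v ≠ m := by
        rintro rfl
        exact hmM hvM
      rw [yM v hvM, if_neg hvm]
      rfl
    · rw [f1 v hvM]
      exact CharTwo.add_self_eq_zero _
  have hyH : ∀ v, (y v).2 = H v m := by
    intro v
    have h1 := congrArg Prod.snd (congrFun hsum v)
    rw [Pi.add_apply, Prod.snd_add] at h1
    have h2 : ∀ a b : ZMod 2, a + b = 0 → a = b := by decide
    exact h2 _ _ h1
  refine ⟨?_, ?_⟩
  · intro v hv
    rw [← hyH v, yM v hv]
    rfl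
  · intro v hv hmM
    rw [← hyH v, hy3 ⟨v, hv⟩]

/-- **the step**: if there are at least three parts at `e` and all the minors outside one part are
trees then the graph is a tree -/
theorem kThree (h : Hyp L e D) {H : V → V → ZMod 2} (hH : IsMat L H) (hd : Dec L e D P)
    (h3 : 3 ≤ P.card)
    (hN : ∀ M ∈ P, ∃ x ∈ M, ∃ H' : {v // v ∉ M} → {v // v ∉ M} → ZMod 2,
      IsMat (NN L D M x) H' ∧ (GrH H').IsTree) : (GrH H).IsTree := by
  choose! x hx H' hH' hT' using hN
  have key : ∀ M ∈ P, ∀ Q ∈ P, Q ≠ M → ∀ m ∈ Q, (∀ v ∈ M, H v m = 0) ∧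
      ∀ (v : V) (hv : v ∉ M) (hmM : m ∉ M), H v m = H' M ⟨v, hv⟩ ⟨m, hmM⟩ := by
    intro M hM Q hQ hQM m hm
    obtain ⟨M', hM', hM'M, hM'Q⟩ : ∃ M' ∈ P, M' ≠ M ∧ M' ≠ Q := by
      by_contra hno
      push Not at hno
      have hsub : P ⊆ {M, Q} := by
        intro N hN
        by_cases hNM : N = M
        · simp [hNM]
        · have := hno N hN hNM
          simp [this]
      have h4 := Finset.card_le_card hsub
      have h5 := Finset.card_le_two (a := M) (b := Q)
      omega
    exact stepC h hd hH hM hM' hQ (Ne.symm hM'M) hQM (Ne.symm hM'Q) (hx M hM) (hx M' hM')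
      (hH' M hM) (hT' M hM).isAcyclic (hH' M' hM') (hT' M' hM').isAcyclic m hm
  apply glueP (GrH H) e P hd.he hd.ne hd.disj hd.cov
  · intro M hM v hv w hw hvw
    by_contra hwM
    obtain ⟨Q, hQ, hwQ⟩ := hd.cov w hw
    have hQM : Q ≠ M := by
      rintro rfl
      exact hwM hwQ
    have h1 := (key M hM Q hQ hQM w hwQ).1 v hv
    have h2 := ((hH.adj v w).1 hvw).2
    rw [h1] at h2
    exact absurd h2 (by decide)
  · intro M hM
    have heq : (GrH H).comap (Subtype.val : {v // v ∉ M} → V) = GrH (H' M) := by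
      ext v w
      rw [SimpleGraph.comap_adj, hH.adj, (hH' M hM).adj]
      have hval : v ≠ w → H v.1 w.1 = H' M v w := by
        intro hvw
        by_cases hwe : w.1 = e
        · have hve : v.1 ≠ e := by
            intro hve
            apply hvw
            apply Subtype.ext
            rw [hve, hwe]
          obtain ⟨Q, hQ, hvQ⟩ := hd.cov v.1 hve
          have hQM : Q ≠ M := by
            rintro rfl
            exact v.2 hvQ
          rw [hH.sym, (hH' M hM).sym]
          exact (key M hM Q hQ hQM v.1 hvQ).2 w.1 w.2 v.2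
        · obtain ⟨Q, hQ, hwQ⟩ := hd.cov w.1 hwe
          have hQM : Q ≠ M := by
            rintro rfl
            exact w.2 hwQ
          exact (key M hM Q hQ hQM w.1 hwQ).2 v.1 v.2 w.2
      constructor
      · rintro ⟨h1, h2⟩
        have h3 : v ≠ w := fun h4 => h1 (congrArg Subtype.val h4)
        exact ⟨h3, by rw [← hval h3]; exact h2⟩
      · rintro ⟨h1, h2⟩
        exact ⟨fun h4 => h1 (Subtype.ext h4), by rw [hval h1]; exact h2⟩
    rw [heq]
    exact hT' M hM
  · omega

end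

end Pool.Agent.H17.TR
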