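import Mathlib

set_option autoImplicit false

/-!
`P4`-free symmetric matrices over `ZMod 2` have twins (Seinsche), for MP_a46c6f_co.
-/

namespace Pool.Agent.H17.TR

section
variable {X : Type}

/-- an induced path `a - b - c - d` -/
structure IsP4 (M : X → X → ZMod 2) (a b c d : X) : Prop where
  ab : M a b = 1
  bc : M b c = 1
  cd : M c d = 1
  ac : M a c = 0
  ad : M a d = 0
  bd : M b d = 0
  nab : a ≠ b
  nac : a ≠ c
  nad : a ≠ d
  nbc : b ≠ c
  nbd : b ≠ d
  ncd : c ≠ d

theorem zmod_ne {a s : ZMod 2} (h : a ≠ s) : a = s + 1 := by
  revert a s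
  decide

variable [DecidableEq X]

/-- Seinsche: a set with at least two vertices without induced `P4` has a split with a constant
matrix between the two sides -/
theorem seinsche (M : X → X → ZMod 2) (hs : ∀ x y, M x y = M y x)
    (hP : ∀ a b c d, ¬ IsP4 M a b c d) : ∀ (n : ℕ) (A : Finset X), A.card = n → 2 ≤ n →
      ∃ B ⊆ A, B ≠ ∅ ∧ B ≠ A ∧ ∃ s : ZMod 2, ∀ u ∈ B, ∀ w ∈ A, w ∉ B → M u w = s := by
  -- no `P4` in the relation `M = s + 1`
  have hP' : ∀ (s : ZMod 2) (a b c d : X), a ≠ b → a ≠ c → a ≠ d → b ≠ c → b ≠ d → c ≠ d →
      M a b = s + 1 → M b c = s + 1 → M c d = s + 1 → M a c = s → M a d = s → M b d = s →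
      False := by
    intro s a b c d h1 h2 h3 h4 h5 h6 ab bc cd ac ad bd
    have hs01 : ∀ s : ZMod 2, s = 0 ∨ s = 1 := by decide
    rcases hs01 s with rfl | rfl
    · exact hP a b c d ⟨by rw [ab]; decide, by rw [bc]; decide, by rw [cd]; decide, ac, ad, bd, h1,
        h2, h3, h4, h5, h6⟩
    · exact hP b d a c ⟨bd, by rw [hs]; exact ad, ac, by rw [hs, ab]; decide,
        by rw [bc]; decide, by rw [hs, cd]; decide, h5, Ne.symm h1, h4, Ne.symm h3, Ne.symm h6, h2⟩
  intro n
  induction n with
  | zero =>
    intro A _ h2
    omega
  | succ n ih =>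
    intro A hA h2
    have hne : A.Nonempty := by
      rw [← Finset.card_pos]
      omega
    obtain ⟨v, hv⟩ := hne
    rcases Nat.lt_or_ge n 2 with hn | hn
    · -- two elements
      have hcard : (A.erase v).card = 1 := by
        rw [Finset.card_erase_of_mem hv]
        omega
      obtain ⟨w, hw⟩ := Finset.card_eq_one.1 hcard
      refine ⟨{v}, by simpa using hv, by simp, ?_, M v w, ?_⟩
      · intro h
        have : w ∈ A.erase v := by
          rw [hw]
          exact Finset.mem_singleton_self _
        rw [Finset.mem_erase, ← h, Finset.mem_singleton] at this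
        exact this.1 this.2
      · intro u hu w' hw' hw'v
        rw [Finset.mem_singleton] at hu
        subst hu
        have : w' ∈ A.erase u := by
          rw [Finset.mem_erase]
          refine ⟨?_, hw'⟩
          rintro rfl
          exact hw'v (Finset.mem_singleton_self _)
        rw [hw, Finset.mem_singleton] at this
        rw [this]
    · have hcard : (A.erase v).card = n := by
        rw [Finset.card_erase_of_mem hv]
        omega
      obtain ⟨B₀, hB₀A, hB₀e, hB₀n, s, hsB₀⟩ := ih (A.erase v) hcard hn
      -- `v` joined to everything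
      by_cases hall : ∀ u ∈ A.erase v, M v u = s + 1
      · refine ⟨{v}, by simpa using hv, by simp, ?_, s + 1, ?_⟩
        · intro h
          have : A.card = 1 := by
            rw [← h]
            simp
          omega
        · intro u hu w hw hwv
          rw [Finset.mem_singleton] at hu
          subst hu
          apply hall
          rw [Finset.mem_erase]
          refine ⟨?_, hw⟩
          rintro rfl
          exact hwv (Finset.mem_singleton_self _)
      · push Not at hall
        obtain ⟨b₀, hb₀, hvb₀⟩ := hall
        have hvb₀s : M v b₀ = s := by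
          have : ∀ a s : ZMod 2, a ≠ s + 1 → a = s := by decide
          exact this _ _ hvb₀
        -- the family of closed sets
        let Good : Finset X → Prop := fun B => B ⊆ A.erase v ∧
          (∀ u ∈ B, ∀ w ∈ A.erase v, w ∉ B → M u w = s) ∧ ∃ b ∈ B, M v b = s
        have hex : ∃ k, ∃ B, Good B ∧ B.card = k := ⟨_, A.erase v, ⟨Finset.Subset.refl _,
          fun u hu w hw hwn => absurd hw hwn, b₀, hb₀, hvb₀s⟩, rfl⟩
        classical
        obtain ⟨B, hB, hBc⟩ := Nat.find_spec hex
        have hmin : ∀ C, Good C → B.card ≤ C.card := by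
          intro C hC
          rw [hBc]
          exact Nat.find_min' hex ⟨C, hC, rfl⟩
        obtain ⟨hBA, hBs, b, hb, hvb⟩ := hB
        have hvB : v ∉ B := fun h => (Finset.mem_erase.1 (hBA h)).1 rfl
        -- `B` is not everything
        have hBne : ∃ c ∈ A.erase v, c ∉ B := by
          by_contra hno
          push Not at hno
          -- one of the two sides of the first split is good
          have hb₀mem := hb₀
          by_cases hb₀B : b₀ ∈ B₀
          · have hg : Good B₀ := ⟨hB₀A, hsB₀, b₀, hb₀B, hvb₀s⟩
            have h1 := hmin _ hg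
            have h2 : A.erase v ⊆ B := hno
            have h3 := Finset.card_le_card h2
            have h4 : B₀ = A.erase v := Finset.eq_of_subset_of_card_le hB₀A (by omega)
            exact hB₀n h4
          · have hg : Good ((A.erase v) \ B₀) := by
              refine ⟨Finset.sdiff_subset, ?_, b₀, Finset.mem_sdiff.2 ⟨hb₀, hb₀B⟩, hvb₀s⟩
              intro u hu w hw hwn
              rw [Finset.mem_sdiff] at hu
              have hwB : w ∈ B₀ := by
                by_contra h
                exact hwn (Finset.mem_sdiff.2 ⟨hw, h⟩)
              rw [hs]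
              exact hsB₀ w hwB u hu.1 hu.2
            have h1 := hmin _ hg
            have h3 := Finset.card_le_card (show A.erase v ⊆ B from hno)
            have h4 : (A.erase v) \ B₀ = A.erase v :=
              Finset.eq_of_subset_of_card_le Finset.sdiff_subset (by omega)
            obtain ⟨x, hx⟩ := Finset.nonempty_iff_ne_empty.2 hB₀e
            have hx' := hB₀A hx
            rw [← h4, Finset.mem_sdiff] at hx'
            exact hx'.2 hx
        obtain ⟨c, hc, hcB⟩ := hBne
        have hcA := (Finset.mem_erase.1 hc).2
        by_cases hvBall : ∀ u ∈ B, M v u = s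
        · -- `B` against the rest
          refine ⟨B, hBA.trans (Finset.erase_subset _ _), Finset.ne_empty_of_mem hb, ?_, s, ?_⟩
          · intro h
            exact hvB (by rw [h]; exact hv)
          · intro u hu w hw hwB
            by_cases hwv : w = v
            · rw [hwv, hs]
              exact hvBall u hu
            · exact hBs u hu w (Finset.mem_erase.2 ⟨hwv, hw⟩) hwB
        · by_cases hvC : ∀ u ∈ A.erase v, u ∉ B → M v u = s
          · -- the rest of `A - v` against `B + v`
            refine ⟨(A.erase v) \ B, Finset.sdiff_subset.trans (Finset.erase_subset _ _),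
              Finset.ne_empty_of_mem (Finset.mem_sdiff.2 ⟨hc, hcB⟩), ?_, s, ?_⟩
            · intro h
              have : v ∈ (A.erase v) \ B := by rw [h]; exact hv
              exact (Finset.mem_erase.1 (Finset.mem_sdiff.1 this).1).1 rfl
            · intro u hu w hw hwn
              rw [Finset.mem_sdiff] at hu
              by_cases hwv : w = v
              · rw [hwv, hs]
                exact hvC u hu.1 hu.2
              · have hwB : w ∈ B := by
                  by_contra h
                  exact hwn (Finset.mem_sdiff.2 ⟨Finset.mem_erase.2 ⟨hwv, hw⟩, h⟩)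
                rw [hs]
                exact hBs w hwB u hu.1 hu.2
          · exfalso
            push Not at hvBall hvC
            obtain ⟨a₁, ha₁, hva₁⟩ := hvBall
            obtain ⟨c₁, hc₁, hc₁B, hvc₁⟩ := hvC
            -- the non-neighbours of `v` in `B` are not closed
            have hnot : ¬ Good (B.filter (fun u => M v u = s)) := by
              intro hg
              have h1 := hmin _ hg
              have h2 : B.filter (fun u => M v u = s) = B :=
                Finset.eq_of_subset_of_card_le (Finset.filter_subset _ _) h1
              have h3 : a₁ ∈ B.filter (fun u => M v u = s) := by rw [h2]; exact ha₁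
              exact hva₁ (Finset.mem_filter.1 h3).2
            apply hnot
            refine ⟨(Finset.filter_subset _ _).trans hBA, ?_, b,
              Finset.mem_filter.2 ⟨hb, hvb⟩, hvb⟩
            intro u hu w hw hwn
            rw [Finset.mem_filter] at hu
            by_cases hwB : w ∈ B
            · have hvw : M v w ≠ s := fun h => hwn (Finset.mem_filter.2 ⟨hwB, h⟩)
              by_contra hne
              have huv : u ≠ v := fun h => hvB (h ▸ hu.1)
              have hwv : w ≠ v := fun h => hvB (h ▸ hwB)
              have hcv : c₁ ≠ v := fun h => (Finset.mem_erase.1 hc₁).1 h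
              have huc : u ≠ c₁ := fun h => hc₁B (h ▸ hu.1)
              have hwc : w ≠ c₁ := fun h => hc₁B (h ▸ hwB)
              have huw : u ≠ w := by
                rintro rfl
                exact hvw hu.2
              exact hP' s u w v c₁ huw huv huc hwv hwc (Ne.symm hcv) (zmod_ne hne)
                (by rw [hs]; exact zmod_ne hvw) (zmod_ne hvc₁) (by rw [hs]; exact hu.2)
                (hBs u hu.1 c₁ hc₁ hc₁B) (hBs w hwB c₁ hc₁ hc₁B)
            · exact hBs u hu.1 w hw hwB

/-- a set with at least two vertices without induced `P4` has twins -/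
theorem twins (M : X → X → ZMod 2) (hs : ∀ x y, M x y = M y x)
    (hP : ∀ a b c d, ¬ IsP4 M a b c d) : ∀ (n : ℕ) (A : Finset X), A.card = n → 2 ≤ n →
      ∃ x ∈ A, ∃ y ∈ A, x ≠ y ∧ ∀ w ∈ A, w ≠ x → w ≠ y → M w x = M w y := by
  intro n
  induction n using Nat.strong_induction_on with
  | _ n ih =>
    intro A hA h2
    obtain ⟨B, hBA, hBe, hBn, s, hBs⟩ := seinsche M hs hP n A hA h2
    -- the two sides
    have hside : ∀ C ⊆ A, C ≠ ∅ → C ≠ A → (∀ u ∈ C, ∀ w ∈ A, w ∉ C → M u w = s) →
        2 ≤ C.card → ∃ x ∈ A, ∃ y ∈ A, x ≠ y ∧ ∀ w ∈ A, w ≠ x → w ≠ y → M w x = M w y := by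
      intro C hCA _ hCn hCs hC2
      have hlt : C.card < n := by
        rw [← hA]
        exact Finset.card_lt_card (Finset.ssubset_iff_subset_ne.2 ⟨hCA, hCn⟩)
      obtain ⟨x, hx, y, hy, hxy, h⟩ := ih C.card hlt C rfl hC2
      refine ⟨x, hCA hx, y, hCA hy, hxy, ?_⟩
      intro w hw hwx hwy
      by_cases hwC : w ∈ C
      · exact h w hwC hwx hwy
      · rw [hs w x, hs w y, hCs x hx w hw hwC, hCs y hy w hw hwC]
    by_cases hB2 : 2 ≤ B.card
    · exact hside B hBA hBe hBn hBs hB2
    · have hBpos : 0 < B.card := Finset.card_pos.2 (Finset.nonempty_iff_ne_empty.2 hBe)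
      by_cases hC2 : 2 ≤ (A \ B).card
      · apply hside (A \ B) Finset.sdiff_subset _ _ _ hC2
        · intro h
          rw [h] at hC2
          simp at hC2
        · intro h
          obtain ⟨x, hx⟩ := Finset.nonempty_iff_ne_empty.2 hBe
          have hx' := hBA hx
          rw [← h, Finset.mem_sdiff] at hx'
          exact hx'.2 hx
        · intro u hu w hw hwn
          rw [Finset.mem_sdiff] at hu
          have hwB : w ∈ B := by
            by_contra h
            exact hwn (Finset.mem_sdiff.2 ⟨hw, h⟩)
          rw [hs]
          exact hBs w hwB u hu.1 hu.2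
      · -- two vertices
        have hsum : (A \ B).card + B.card = A.card := Finset.card_sdiff_add_card_eq_card hBA
        have hB1 : B.card = 1 := by omega
        have hC1 : (A \ B).card = 1 := by omega
        obtain ⟨x, hx⟩ := Finset.card_eq_one.1 hB1
        obtain ⟨y, hy⟩ := Finset.card_eq_one.1 hC1
        have hyC : y ∈ A \ B := by rw [hy]; exact Finset.mem_singleton_self _
        have hxB : x ∈ B := by rw [hx]; exact Finset.mem_singleton_self _
        rw [Finset.mem_sdiff] at hyC
        refine ⟨x, hBA hxB, y, hyC.1, ?_, ?_⟩
        · rintro rfl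
          exact hyC.2 hxB
        · intro w hw hwx hwy
          exfalso
          by_cases hwB : w ∈ B
          · rw [hx, Finset.mem_singleton] at hwB
            exact hwx hwB
          · have : w ∈ A \ B := Finset.mem_sdiff.2 ⟨hw, hwB⟩
            rw [hy, Finset.mem_singleton] at this
            exact hwy this

end

end Pool.Agent.H17.TR
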