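import Pool.Agent.H17.TR.KThree

set_option autoImplicit false

/-!
The skeleton of the rooted tree theorem (MP_a46c6f_co, target (C)): induction on the number of
vertices, with the cases of one and of two parts as hypotheses.
-/

namespace Pool.Agent.H17.TR

open Pool.Agent.H98.Code Pool.Agent.H26.TR

section
variable {V : Type} [Fintype V]

theorem exists_isMat {L : Submodule (ZMod 2) (V → K)} (hL : IsCode L) (hz : NoZ L) :
    ∃ H, IsMat L H := by
  obtain ⟨H, h1, h2⟩ := exists_matrix hL hz
  exact ⟨H, h1, h2⟩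

end

section
variable {V : Type} [Fintype V] [DecidableEq V]
variable {L : Submodule (ZMod 2) (V → K)} {e : V} {D : V → K} {P : Finset (Finset V)}

/-- the sum of the rows of the vertices other than `e` is a full state at `e` -/
theorem exists_hyp (hL : IsCode L) (hc : CritAt L e) {H : V → V → ZMod 2} (hH : IsMat L H) :
    ∃ D, Hyp L e D := by
  have ht : (fun v => ((if v = e then 0 else 1 : ZMod 2), ∑ w, H v w * (if w = e then 0 else 1))) ∈
      L := by
    rw [hH.mem]
    intro v
    rfl
  refine ⟨fun v => ((if v = e then 0 else 1 : ZMod 2), ∑ w, H v w * (if w = e then 0 else 1)),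
    hL.iso, ?_, hc, ?_, ?_⟩
  · intro u hu h0 hue
    have h1 : u = 0 := by
      apply hH.noz u hu
      intro v
      by_cases hv : v = e
      · rw [hv, hue]
        rfl
      · rw [h0 v hv]
        rfl
    rw [h1, Pi.zero_apply] at hue
    exact absurd hue (by decide)
  · intro v hv
    simp [hv]
  · intro v hv
    refine ⟨_, ⟨ht, fun w _ => Or.inr rfl, ?_⟩, ?_⟩
    · apply K_cases
      simp
    · intro h0
      have := congrArg Prod.fst h0
      simp [hv] at this

theorem nn_isCode (h : Hyp L e D) (hL : IsCode L) (hd : Dec L e D P) {M : Finset V} (hM : M ∈ P)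
    {x : V} : IsCode (NN L D M x) := by
  unfold NN
  apply minor_isCode hL Subtype.val_injective
  intro v hv
  have hvM : v ∈ M := by
    by_contra hvM
    exact hv ⟨⟨v, hvM⟩, rfl⟩
  have hve : v ≠ e := by
    rintro rfl
    exact hd.he M hM hvM
  have hl := h.letter v hve
  intro h0
  by_cases hvx : v = x
  · rw [if_pos hvx] at h0
    have h2 := k_fst_add_z (D v)
    rw [h0, hl] at h2
    exact absurd h2 (by decide)
  · rw [if_neg hvx] at h0
    exact h.D_ne hve h0

/-- a word of `L` with `(u e).1 = 0` which gives a word of the minor is at most `D` on `M` and `0`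
at `x` -/
theorem nn_le (h : Hyp L e D) (hd : Dec L e D P) {M : Finset V} (hM : M ∈ P) {x : V}
    (hx : x ∈ M) {u : V → K} (hu : u ∈ L)
    (h1 : ∀ v ∈ M, kf (u v) (if v = x then D v + z else D v) = 0) (he : (u e).1 = 0) :
    u x = 0 ∧ ∀ v ∈ M, u v = 0 ∨ u v = D v := by
  have heM := hd.he M hM
  have hMe : ∀ v ∈ M, v ≠ e := by
    rintro v hv rfl
    exact heM hv
  have hyM : ∀ v ∈ M, v ≠ x → u v = 0 ∨ u v = D v := by
    intro v hv hvx
    have h2 := h1 v hv
    rw [if_neg hvx] at h2
    exact (kf_eq_zero_iff _ _ (h.D_ne (hMe v hv))).1 h2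
  have hyx : u x = 0 ∨ u x = D x + z := by
    have h2 := h1 x hx
    rw [if_pos rfl] at h2
    refine (kf_eq_zero_iff _ _ ?_).1 h2
    intro h0
    have h3 := k_fst_add_z (D x)
    rw [h0, h.letter x (hMe x hx)] at h3
    exact absurd h3 (by decide)
  have hform := h.iso u hu _ (hd.mem M hM)
  unfold form at hform
  rw [Finset.sum_eq_single x] at hform
  · rw [pw_of_mem (hMe x hx) hx] at hform
    have hyx' : u x = 0 := by
      rcases hyx with h2 | h2
      · exact h2
      · exfalso
        rw [h2] at hform
        have h3 := h.letter x (hMe x hx)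
        generalize D x = a at hform h3
        revert a
        decide
    refine ⟨hyx', ?_⟩
    intro v hv
    by_cases hvx : v = x
    · rw [hvx]
      exact Or.inl hyx'
    · exact hyM v hv hvx
  · intro v _ hvx
    by_cases hve : v = e
    · rw [hve, pw_e, kf_z_right, he]
    · by_cases hvM : v ∈ M
      · rw [pw_of_mem hve hvM]
        exact (kf_eq_zero_iff _ _ (h.D_ne hve)).2 (hyM v hvM hvx)
      · rw [pw_of_notMem hve hvM, kf_zero_right]
  · intro hx'
    exact absurd (Finset.mem_univ x) hx'

theorem nn_noz (h : Hyp L e D) (hz : NoZ L) (hd : Dec L e D P) {M : Finset V} (hM : M ∈ P) {x : V}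
    (hx : x ∈ M) : NoZ (NN L D M x) := by
  intro a ha haz
  obtain ⟨u, hu, hu1, rfl⟩ := mem_NN.1 ha
  have heM := hd.he M hM
  have hMe : ∀ v ∈ M, v ≠ e := by
    rintro v hv rfl
    exact heM hv
  have hoff : ∀ v, v ∉ M → (u v).1 = 0 := fun v hv => haz ⟨v, hv⟩
  obtain ⟨hux, huM⟩ := nn_le h hd hM hx hu hu1 (hoff e heM)
  obtain ⟨t, ht, htt⟩ := h.exists_total
  let D' : V → K := fun v => if v ∈ M then D v else D v + u v
  have D'1 : ∀ v, v ≠ e → (D' v).1 = 1 := by
    intro v hv
    simp only [D']
    by_cases hvM : v ∈ M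
    · rw [if_pos hvM, h.letter v hv]
    · rw [if_neg hvM, Prod.fst_add, hoff v hvM, add_zero, h.letter v hv]
  have D'n : ∀ v, v ≠ e → D' v ≠ 0 := by
    intro v hv h0
    have := D'1 v hv
    rw [h0] at this
    exact absurd this (by decide)
  have kt : KD L D' e (t + u) := by
    refine ⟨L.add_mem ht.1 hu, ?_, ?_⟩
    · intro v hv
      rw [Pi.add_apply, htt v hv]
      simp only [D']
      by_cases hvM : v ∈ M
      · rw [if_pos hvM]
        rcases huM v hvM with h2 | h2
        · right
          rw [h2, add_zero]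
        · left
          rw [h2, K_add_self]
      · right
        rw [if_neg hvM]
    · rw [Pi.add_apply]
      rcases ht.2.2 with h1 | h1 <;> rcases K_cases _ (hoff e heM) with h2 | h2
      · left; rw [h1, h2, add_zero]
      · right; rw [h1, h2, zero_add]
      · right; rw [h1, h2, add_zero]
      · left; rw [h1, h2, K_add_self]
  have kp : KD L D' e (pw D e M) := by
    refine ⟨hd.mem M hM, ?_, Or.inr pw_e⟩
    intro v hv
    by_cases hvN : v ∈ M
    · right
      simp only [D']
      rw [pw_of_mem hv hvN, if_pos hvN]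
    · left
      exact pw_of_notMem hv hvN
  have h' : Hyp L e D' := by
    refine ⟨h.iso, h.noz, h.split, D'1, ?_⟩
    intro v hv
    by_cases hvM : v ∈ M
    · refine ⟨pw D e M, kp, ?_⟩
      rw [pw_of_mem hv hvM]
      exact h.D_ne hv
    · refine ⟨_, kt, ?_⟩
      have h3 := D'n v hv
      simp only [D'] at h3
      rw [if_neg hvM] at h3
      rw [Pi.add_apply, htt v hv]
      exact h3
  have huni := h.unique h' hz
  have h0 : ∀ v, v ≠ e → v ∉ M → u v = 0 := by
    intro v hv hvM
    have h1 := huni v hv
    simp only [D'] at h1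
    rw [if_neg hvM] at h1
    have h2 : ∀ a b : K, a = a + b → b = 0 := by decide
    exact h2 _ _ h1
  have kd : KD L D e u := by
    refine ⟨hu, ?_, K_cases _ (hoff e heM)⟩
    intro v hv
    by_cases hvM : v ∈ M
    · exact huM v hvM
    · exact Or.inl (h0 v hv hvM)
  have hzero : ∀ v, v ≠ e → u v = 0 := by
    intro v hv
    by_cases hvM : v ∈ M
    · rcases hd.all _ kd M hM with h1 | h1
      · exact absurd hux (mem_sup.1 (h1 hx)).2
      · by_contra h2
        exact Finset.disjoint_left.1 h1 hvM (mem_sup.2 ⟨hv, h2⟩)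
    · exact h0 v hv hvM
  have hu0 : u = 0 := by
    apply hz u hu
    intro v
    by_cases hv : v = e
    · rw [hv]
      exact hoff e heM
    · rw [hzero v hv]
      rfl
  rw [hu0]
  rfl

theorem nn_critAt (h : Hyp L e D) (hd : Dec L e D P) {M : Finset V} (hM : M ∈ P) {x : V}
    (hx : x ∈ M) : CritAt (NN L D M x) ⟨e, hd.he M hM⟩ := by
  intro a ha ha0 haf hae
  obtain ⟨u, hu, hu1, rfl⟩ := mem_NN.1 ha
  have heM := hd.he M hM
  have hMe : ∀ v ∈ M, v ≠ e := by
    rintro v hv rfl
    exact heM hv
  have hue : u e = 0 := hae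
  obtain ⟨hux, huM⟩ := nn_le h hd hM hx hu hu1 (by rw [hue]; rfl)
  have hzf : ZFree u := by
    intro v hv
    by_cases hvM : v ∈ M
    · rcases huM v hvM with h2 | h2
      · rw [h2] at hv
        exact absurd hv (by decide)
      · have h3 := h.letter v (hMe v hvM)
        rw [← h2, hv] at h3
        exact absurd h3 (by decide)
    · exact haf ⟨v, hvM⟩ hv
  have hu0 : u ≠ 0 := by
    intro h0
    apply ha0
    rw [h0]
    rfl
  obtain ⟨g, c₁, hc₁, c₂, hc₂, hsum, hg1, hg2, hdis⟩ := h.split u hu hu0 hzf hue
  have hval : ∀ v, v ≠ g → (c₁ v = 0 ∨ c₁ v = u v) ∧ (c₂ v = 0 ∨ c₂ v = u v) := by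
    intro v hv
    have hs : u v = c₁ v + c₂ v := by rw [← hsum]; rfl
    rcases hdis v hv with h1 | h1
    · rw [h1, zero_add] at hs
      exact ⟨Or.inl h1, Or.inr hs.symm⟩
    · rw [h1, add_zero] at hs
      exact ⟨Or.inr hs.symm, Or.inl h1⟩
  have hgM : g ∉ M := by
    intro hgM
    have hge : e ≠ g := fun h1 => hMe g hgM h1.symm
    have hform := h.iso c₁ hc₁ _ (hd.mem M hM)
    unfold form at hform
    rw [Finset.sum_eq_single g] at hform
    · rw [hg1, pw_of_mem (hMe g hgM) hgM, kf_z_left, h.letter g (hMe g hgM)] at hform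
      exact absurd hform (by decide)
    · intro v _ hvg
      by_cases hve : v = e
      · rw [hve]
        have h1 : c₁ e = 0 := by
          rcases (hval e hge).1 with h1 | h1
          · exact h1
          · rw [h1, hue]
        rw [h1, kf_zero_left]
      · by_cases hvM : v ∈ M
        · rw [pw_of_mem hve hvM]
          apply (kf_eq_zero_iff _ _ (h.D_ne hve)).2
          rcases (hval v hvg).1 with h1 | h1
          · exact Or.inl h1
          · rw [h1]
            exact huM v hvM
        · rw [pw_of_notMem hve hvM, kf_zero_right]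
    · intro h1
      exact absurd (Finset.mem_univ g) h1
  have hin : ∀ c ∈ L, (∀ v, v ≠ g → c v = 0 ∨ c v = u v) →
      (fun w : {v // v ∉ M} => c w.1) ∈ NN L D M x := by
    intro c hc hcv
    rw [mem_NN]
    refine ⟨c, hc, ?_, rfl⟩
    intro v hv
    have hvg : v ≠ g := by
      rintro rfl
      exact hgM hv
    by_cases hvx : v = x
    · have h1 : c v = 0 := by
        rcases hcv v hvg with h1 | h1
        · exact h1
        · rw [h1, hvx, hux]
      rw [h1, kf_zero_left]
    · rw [if_neg hvx]
      apply (kf_eq_zero_iff _ _ (h.D_ne (hMe v hv))).2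
      rcases hcv v hvg with h1 | h1
      · exact Or.inl h1
      · rw [h1]
        exact huM v hv
  refine ⟨⟨g, hgM⟩, _, hin c₁ hc₁ (fun v hv => (hval v hv).1), _,
    hin c₂ hc₂ (fun v hv => (hval v hv).2), ?_, hg1, hg2, ?_⟩
  · funext w
    exact congrFun hsum w.1
  · intro w hw
    apply hdis
    intro h1
    exact hw (Subtype.ext h1)

end

/-- the rooted tree statement for all codes with fewer than `n` vertices -/
def Below (n : ℕ) : Prop :=
  ∀ (V : Type) [Fintype V] [DecidableEq V] (L : Submodule (ZMod 2) (V → K)) (e : V)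
    (H : V → V → ZMod 2), Fintype.card V < n → IsCode L → CritAt L e → IsMat L H →
    (GrH H).IsTree

/-- the case of one part -/
def CaseOne : Prop :=
  ∀ (V : Type) [Fintype V] [DecidableEq V] (L : Submodule (ZMod 2) (V → K)) (e : V)
    (H : V → V → ZMod 2) (D : V → K) (P : Finset (Finset V)), Below (Fintype.card V) →
    IsCode L → CritAt L e → IsMat L H → Hyp L e D → Dec L e D P → P.card = 1 → (GrH H).IsTree

/-- the case of two parts -/
def CaseTwo : Prop :=
  ∀ (V : Type) [Fintype V] [DecidableEq V] (L : Submodule (ZMod 2) (V → K)) (e : V)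
    (H : V → V → ZMod 2) (D : V → K) (P : Finset (Finset V)),
    IsCode L → CritAt L e → IsMat L H → Hyp L e D → Dec L e D P → P.card = 2 →
    (∀ M ∈ P, ∀ x ∈ M, ∀ H' : {v // v ∉ M} → {v // v ∉ M} → ZMod 2,
      IsMat (NN L D M x) H' → (GrH H').IsTree) → (GrH H).IsTree

/-- **the rooted tree theorem** from the cases of one and of two parts -/
theorem rooted_tree (h1 : CaseOne) (h2 : CaseTwo) (V : Type) [Fintype V] [DecidableEq V]
    (L : Submodule (ZMod 2) (V → K)) (e : V) (H : V → V → ZMod 2) (hL : IsCode L)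
    (hc : CritAt L e) (hH : IsMat L H) : (GrH H).IsTree := by
  have main : ∀ n, Below n := by
    intro n
    induction n with
    | zero =>
      intro V _ _ L e H hn
      omega
    | succ n ih =>
      intro V _ _ L e H hn hL hc hH
      have hB : Below (Fintype.card V) := by
        intro V' _ _ L' e' H' hn' hL' hc' hH'
        exact ih V' L' e' H' (by omega) hL' hc' hH'
      obtain ⟨D, hD⟩ := exists_hyp hL hc hH
      obtain ⟨P, hP⟩ := exists_dec hD
      have hN : ∀ M ∈ P, ∀ x ∈ M, ∀ H' : {v // v ∉ M} → {v // v ∉ M} → ZMod 2,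
          IsMat (NN L D M x) H' → (GrH H').IsTree := by
        intro M hM x hx H' hH'
        refine hB _ _ ⟨e, hP.he M hM⟩ H' ?_ (nn_isCode hD hL hP hM) (nn_critAt hD hP hM hx) hH'
        exact Fintype.card_subtype_lt (x := x) (fun h' => h' hx)
      rcases Nat.lt_or_ge P.card 3 with hlt | hge
      · rcases Nat.lt_or_ge P.card 1 with hlt1 | hge1
        · have hall : ∀ v, v = e := by
            intro v
            by_contra hv
            obtain ⟨M, hM, -⟩ := hP.cov v hv
            have := Finset.card_pos.2 ⟨M, hM⟩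
            omega
          have : Subsingleton V := ⟨fun a b => (hall a).trans (hall b).symm⟩
          have : Nonempty V := ⟨e⟩
          exact SimpleGraph.IsTree.of_subsingleton
        · rcases Nat.lt_or_ge P.card 2 with hlt2 | hge2
          · exact h1 V L e H D P hB hL hc hH hD hP (by omega)
          · exact h2 V L e H D P hL hc hH hD hP (by omega) hN
      · refine kThree hD hH hP hge ?_
        intro M hM
        obtain ⟨x, hx⟩ := Finset.nonempty_iff_ne_empty.2 (hP.ne M hM)
        obtain ⟨H', hH'⟩ := exists_isMat (nn_isCode hD hL hP hM)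
          (nn_noz hD hH.noz hP hM hx)
        exact ⟨x, hx, H', hH', hN M hM x hx H' hH'⟩
  exact main _ V L e H (Nat.lt_succ_self _) hL hc hH

end Pool.Agent.H17.TR
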